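import Pool.Agent.PJC.Stmts

/-!
Squad PJC, row DUA (helper15): the dual seminorm.
-/

set_option autoImplicit false

namespace Pool.Agent.PJC.H15

open Pool.Agent.PJC

/-- the functional `x ↦ ⟨f, T⁻¹ x⟩` -/
private noncomputable def L {n : ℕ} {X : Type} [NormedAddCommGroup X] [NormedSpace ℝ X]
    [FiniteDimensional ℝ X] (T : Eu n ≃ₗ[ℝ] X) : Eu n →ₗ[ℝ] (X →L[ℝ] ℝ) where
  toFun := fun f => LinearMap.toContinuousLinearMap ((innerₗ (Eu n) f).comp T.symm.toLinearMap)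
  map_add' := fun f g => by
    ext x
    simp [inner_add_left]
  map_smul' := fun c f => by
    ext x
    simp [inner_smul_left]

private theorem L_apply {n : ℕ} {X : Type} [NormedAddCommGroup X] [NormedSpace ℝ X]
    [FiniteDimensional ℝ X] (T : Eu n ≃ₗ[ℝ] X) (f : Eu n) (x : X) :
    L T f x = inner ℝ f (T.symm x) := rfl

/-- the norm of a functional is attained -/
private theorem attained {X : Type} [NormedAddCommGroup X] [NormedSpace ℝ X]
    [FiniteDimensional ℝ X] (g : X →L[ℝ] ℝ) : ∃ x, ‖x‖ ≤ 1 ∧ g x = ‖g‖ := by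
  have : ProperSpace X := FiniteDimensional.proper ℝ X
  obtain ⟨x, hx, hmax⟩ := (isCompact_closedBall (0 : X) 1).exists_isMaxOn
    ⟨0, Metric.mem_closedBall_self zero_le_one⟩ g.continuous.continuousOn
  have hx1 : ‖x‖ ≤ 1 := by rwa [mem_closedBall_zero_iff] at hx
  have hM : ∀ y, ‖y‖ ≤ 1 → g y ≤ g x := by
    intro y hy
    exact hmax (by rw [mem_closedBall_zero_iff]; exact hy)
  have h0 : 0 ≤ g x := by
    have h := hM 0 (by rw [norm_zero]; exact zero_le_one)
    rwa [map_zero] at h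
  refine ⟨x, hx1, le_antisymm ?_ ?_⟩
  · calc g x ≤ ‖g x‖ := Real.le_norm_self _
      _ ≤ ‖g‖ * ‖x‖ := g.le_opNorm x
      _ ≤ ‖g‖ * 1 := mul_le_mul_of_nonneg_left hx1 (norm_nonneg _)
      _ = ‖g‖ := mul_one _
  · refine g.opNorm_le_bound h0 fun y => ?_
    rcases eq_or_ne y 0 with rfl | hy
    · simp
    · have hy0 : 0 < ‖y‖ := norm_pos_iff.2 hy
      have h1 : ∀ c : ℝ, |c| = ‖y‖⁻¹ → ‖c • y‖ ≤ 1 := by
        intro c hc
        rw [norm_smul, Real.norm_eq_abs, hc, inv_mul_cancel₀ hy0.ne']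
      have h2 := hM (‖y‖⁻¹ • y) (h1 _ (abs_of_pos (inv_pos.2 hy0)))
      have h3 := hM (-(‖y‖⁻¹) • y) (h1 _ (by rw [abs_neg]; exact abs_of_pos (inv_pos.2 hy0)))
      rw [map_smul, smul_eq_mul, inv_mul_le_iff₀ hy0] at h2
      rw [map_smul, smul_eq_mul, neg_mul, ← mul_neg, inv_mul_le_iff₀ hy0] at h3
      rw [Real.norm_eq_abs, abs_le]
      constructor
      · linarith [mul_comm ‖y‖ (g x)]
      · linarith [mul_comm ‖y‖ (g x)]

/-- DUA. -/
theorem dua : DuaStmt := by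
  intro n X _ _ _ T
  refine ⟨(normSeminorm ℝ X).comp T.toLinearMap, (normSeminorm ℝ (X →L[ℝ] ℝ)).comp (L T),
    fun v => rfl, ?_⟩
  have hp : ∀ v, ((normSeminorm ℝ X).comp T.toLinearMap) v = ‖T v‖ := fun v => rfl
  have hq : ∀ f, ((normSeminorm ℝ (X →L[ℝ] ℝ)).comp (L T)) f = ‖L T f‖ := fun f => rfl
  refine ⟨fun f v => ?_, fun f => ?_, fun v => ?_⟩
  · rw [hp, hq]
    have h1 : inner ℝ f v = L T f (T v) := by
      rw [L_apply, LinearEquiv.symm_apply_apply]
    rw [h1]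
    exact (Real.le_norm_self _).trans ((L T f).le_opNorm _)
  · obtain ⟨x, hx, hx'⟩ := attained (L T f)
    refine ⟨T.symm x, ?_, ?_⟩
    · rw [hp, LinearEquiv.apply_symm_apply]
      exact hx
    · rw [hq, ← hx', L_apply]
  · obtain ⟨g, hg, hg'⟩ := exists_dual_vector'' ℝ (T v)
    obtain ⟨f, hf⟩ : ∃ f : Eu n, ∀ w, inner ℝ f w = g (T w) := by
      refine ⟨(InnerProductSpace.toDual ℝ (Eu n)).symm
        (LinearMap.toContinuousLinearMap (g.toLinearMap.comp T.toLinearMap)), fun w => ?_⟩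
      rw [InnerProductSpace.toDual_symm_apply]
      rfl
    refine ⟨f, ?_, ?_⟩
    · rw [hq]
      have h1 : L T f = g := by
        ext x
        rw [L_apply, hf, LinearEquiv.apply_symm_apply]
      rw [h1]
      exact hg
    · rw [hf, hg', hp]
      rfl

end Pool.Agent.PJC.H15
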